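import Pool.Agent.Helper48_IR.Zero

/-!
# IR: module COER
-/

set_option autoImplicit false
set_option linter.unusedSectionVars false

open MeasureTheory ProbabilityTheory

open scoped ENNReal NNReal BigOperators

noncomputable section

namespace Pool.Agent.IR.H48

open Matrix Pool.Agent.Anderson Pool.Agent.Loc Pool.Agent.BED Pool.Agent.IR

variable {d M : ℕ} [NeZero M]

/-- the difference in the direction `i` -/
def df (i : Fin d) (u : Tor d M → ℝ) : Tor d M → ℝ := fun x => u (x + ev i) - u x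

theorem energy_eq (u : Tor d M → ℝ) : energy u = ∑ i : Fin d, sqn (df i u) := by
  unfold energy sqn df
  rw [Finset.sum_comm]

theorem energy_nonneg (u : Tor d M → ℝ) : 0 ≤ energy u := by
  rw [energy_eq]; exact Finset.sum_nonneg fun i _ => sqn_nonneg _

/-- the bilinear form of the energy -/
def enb (u v : Tor d M → ℝ) : ℝ := ∑ i : Fin d, ip (df i u) (df i v)

theorem df_add (i : Fin d) (u v : Tor d M → ℝ) : df i (u + v) = df i u + df i v := by
  funext x; simp [df]; ring

theorem df_sub (i : Fin d) (u v : Tor d M → ℝ) : df i (u - v) = df i u - df i v := by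
  funext x; simp [df]; ring

theorem df_smul (i : Fin d) (t : ℝ) (u : Tor d M → ℝ) : df i (t • u) = t • df i u := by
  funext x; simp [df]; ring

theorem df_QM (i : Fin d) (l : ℕ) (u : Tor d M → ℝ) :
    df i (QM d M l *ᵥ u) = QM d M l *ᵥ df i u := by
  funext x
  unfold df
  rw [← QM_shift]
  rw [show (fun x => u (x + ev i) - u x) = (fun x => u (x + ev i)) - u from rfl, Matrix.mulVec_sub,
    Pi.sub_apply]

theorem energy_QM_le {l : ℕ} (hl : 1 ≤ l) (u : Tor d M → ℝ) :
    energy (QM d M l *ᵥ u) ≤ energy u := by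
  rw [energy_eq, energy_eq]
  refine Finset.sum_le_sum fun i _ => ?_
  rw [df_QM]
  exact sqn_QM_le hl _

theorem energy_add_le (u v : Tor d M → ℝ) : energy (u + v) ≤ 2 * energy u + 2 * energy v := by
  rw [energy_eq, energy_eq, energy_eq, Finset.mul_sum, Finset.mul_sum, ← Finset.sum_add_distrib]
  refine Finset.sum_le_sum fun i _ => ?_
  rw [df_add]
  exact sqn_add_le _ _

theorem energy_smul (t : ℝ) (u : Tor d M → ℝ) : energy (t • u) = t ^ 2 * energy u := by
  rw [energy_eq, energy_eq, Finset.mul_sum]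
  exact Finset.sum_congr rfl fun i _ => by rw [df_smul, sqn_smul]

theorem energy_sub (u v : Tor d M → ℝ) : energy (u - v) = energy u - 2 * enb u v + energy v := by
  unfold enb
  rw [energy_eq, energy_eq, energy_eq, Finset.mul_sum, ← Finset.sum_sub_distrib,
    ← Finset.sum_add_distrib]
  exact Finset.sum_congr rfl fun i _ => by rw [df_sub, sqn_sub]

theorem enb_self (u : Tor d M → ℝ) : enb u u = energy u := by
  unfold enb
  rw [energy_eq]
  exact Finset.sum_congr rfl fun i _ => ip_self _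

theorem enb_smul_left (t : ℝ) (u v : Tor d M → ℝ) : enb (t • u) v = t * enb u v := by
  unfold enb
  rw [Finset.mul_sum]
  exact Finset.sum_congr rfl fun i _ => by rw [df_smul, ip_smul_left]

theorem enb_comm (u v : Tor d M → ℝ) : enb u v = enb v u := by
  unfold enb
  exact Finset.sum_congr rfl fun i _ => ip_comm _ _

theorem enb_eig {w : Tor d M → ℝ} {o : ℝ}
    (hw : ∀ x, ∑ i : Fin d, (w (x + ev i) + w (x - ev i)) = (2 * d - o) * w x)
    (v : Tor d M → ℝ) : enb w v = o * ip w v := by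
  have h1 : ∀ i : Fin d, ip (df i w) (df i v) =
      ∑ x, (2 * w x - (w (x + ev i) + w (x - ev i))) * v x := by
    intro i
    have e1 : ip (df i w) (df i v) =
        ∑ x, (w (x + ev i) - w x) * v (x + ev i) - ∑ x, (w (x + ev i) - w x) * v x := by
      unfold ip df
      rw [← Finset.sum_sub_distrib]
      exact Finset.sum_congr rfl fun x _ => by ring
    have e2 : ∑ x, (w (x + ev i) - w x) * v (x + ev i) = ∑ x, (w x - w (x - ev i)) * v x := by
      rw [← Equiv.sum_comp (Equiv.addRight (ev i : Tor d M)) (fun x => (w x - w (x - ev i)) * v x)]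
      refine Finset.sum_congr rfl fun x _ => ?_
      simp
    rw [e1, e2, ← Finset.sum_sub_distrib]
    exact Finset.sum_congr rfl fun x _ => by ring
  unfold enb
  rw [Finset.sum_congr rfl fun i _ => h1 i, Finset.sum_comm]
  unfold ip
  rw [Finset.mul_sum]
  refine Finset.sum_congr rfl fun x _ => ?_
  rw [← Finset.sum_mul, Finset.sum_sub_distrib, hw x, Finset.sum_const, Finset.card_univ,
    Fintype.card_fin, nsmul_eq_mul]
  ring

/-! ### the difference of the average -/

/-- the translation by the other coordinates -/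
def rest {l : ℕ} (i : Fin d) (b : {j : Fin d // j ≠ i} → Fin l) : Tor d M :=
  fun j => if h : j = i then 0 else ((b ⟨j, h⟩ : ℕ) : ZMod M)

theorem vec_split {l : ℕ} (i : Fin d) (a : Fin l) (b : {j : Fin d // j ≠ i} → Fin l) :
    (H32.vec ((Equiv.funSplitAt i (Fin l)).symm (a, b)) : Tor d M) =
      rest i b + (a : ℕ) • (ev i : Tor d M) := by
  funext j
  unfold H32.vec rest ev
  by_cases h : j = i
  · subst h
    simp [Equiv.funSplitAt, Equiv.piSplitAt]
  · simp [Equiv.funSplitAt, Equiv.piSplitAt, h]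

theorem card_rest {l : ℕ} (i : Fin d) :
    (l : ℝ) * (Fintype.card ({j : Fin d // j ≠ i} → Fin l) : ℝ) = (l : ℝ) ^ d := by
  have h := Fintype.card_congr (Equiv.funSplitAt i (Fin l))
  rw [Fintype.card_prod] at h
  have h1 : (Fintype.card (Fin d → Fin l) : ℝ) = (l : ℝ) ^ d := card_cube d l
  rw [← h1, h]
  push_cast
  simp

theorem df_QM_eq {l : ℕ} (i : Fin d) (h : Tor d M → ℝ) (x : Tor d M) :
    df i (QM d M l *ᵥ h) x =
      (∑ b : {j : Fin d // j ≠ i} → Fin l,
        (h (x + rest i b + l • (ev i : Tor d M)) - h (x + rest i b))) / (l : ℝ) ^ d := by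
  rw [df_QM, QM_mulVec]
  congr 1
  rw [← Equiv.sum_comp (Equiv.funSplitAt i (Fin l)).symm, Fintype.sum_prod_type_right]
  refine Finset.sum_congr rfl fun b _ => ?_
  have h1 : ∀ a : Fin l, df i h (x + H32.vec ((Equiv.funSplitAt i (Fin l)).symm (a, b))) =
      (fun n : ℕ => h (x + rest i b + n • (ev i : Tor d M))) ((a : ℕ) + 1) -
        (fun n : ℕ => h (x + rest i b + n • (ev i : Tor d M))) (a : ℕ) := by
    intro a
    unfold df
    rw [vec_split]
    simp only [succ_nsmul, ← add_assoc]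
  rw [Finset.sum_congr rfl fun a _ => h1 a]
  rw [Fin.sum_univ_eq_sum_range (fun n : ℕ =>
    (fun n : ℕ => h (x + rest i b + n • (ev i : Tor d M))) (n + 1) -
      (fun n : ℕ => h (x + rest i b + n • (ev i : Tor d M))) n) l]
  refine (Finset.sum_range_sub (fun n : ℕ => h (x + rest i b + n • (ev i : Tor d M))) l).trans ?_
  rw [zero_nsmul, add_zero]

theorem energy_QM_le' {l : ℕ} (hl : 1 ≤ l) (h : Tor d M → ℝ) :
    energy (QM d M l *ᵥ h) ≤ 4 * d / (l : ℝ) ^ 2 * sqn h := by
  have hl0 : (0 : ℝ) < l := by exact_mod_cast hl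
  have key : ∀ i : Fin d, sqn (df i (QM d M l *ᵥ h)) ≤ 4 / (l : ℝ) ^ 2 * sqn h := by
    intro i
    set K : ℝ := (Fintype.card ({j : Fin d // j ≠ i} → Fin l) : ℝ) with hK
    have hlK : (l : ℝ) * K = (l : ℝ) ^ d := card_rest i
    have hK0 : 0 < K := by
      have : 0 < (l : ℝ) ^ d := by positivity
      rw [← hlK] at this
      exact (pos_iff_pos_of_mul_pos this).1 hl0
    have h1 : ∀ x, df i (QM d M l *ᵥ h) x ^ 2 ≤
        (∑ b : {j : Fin d // j ≠ i} → Fin l,
          (2 * h (x + rest i b + l • (ev i : Tor d M)) ^ 2 + 2 * h (x + rest i b) ^ 2)) /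
            ((l : ℝ) ^ 2 * K) := by
      intro x
      rw [df_QM_eq, ← hlK]
      have h2 := sq_avg_le (fun b : {j : Fin d // j ≠ i} → Fin l =>
        h (x + rest i b + l • (ev i : Tor d M)) - h (x + rest i b)) hK0 rfl
      have h3 : ((∑ b : {j : Fin d // j ≠ i} → Fin l,
          (h (x + rest i b + l • (ev i : Tor d M)) - h (x + rest i b))) / ((l : ℝ) * K)) ^ 2 =
          ((∑ b : {j : Fin d // j ≠ i} → Fin l,
          (h (x + rest i b + l • (ev i : Tor d M)) - h (x + rest i b))) / K) ^ 2 /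
            (l : ℝ) ^ 2 := by
        rw [div_pow, div_pow, mul_pow, div_div, mul_comm ((l : ℝ) ^ 2)]
      rw [h3, mul_comm ((l : ℝ) ^ 2) K, ← div_div]
      refine div_le_div_of_nonneg_right ?_ (by positivity)
      refine h2.trans (div_le_div_of_nonneg_right ?_ hK0.le)
      refine Finset.sum_le_sum fun b _ => ?_
      nlinarith [sq_nonneg (h (x + rest i b + l • (ev i : Tor d M)) + h (x + rest i b))]
    have h4 : sqn (df i (QM d M l *ᵥ h)) ≤
        ∑ x, (∑ b : {j : Fin d // j ≠ i} → Fin l,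
          (2 * h (x + rest i b + l • (ev i : Tor d M)) ^ 2 + 2 * h (x + rest i b) ^ 2)) /
            ((l : ℝ) ^ 2 * K) := Finset.sum_le_sum fun x _ => h1 x
    refine h4.trans (le_of_eq ?_)
    rw [← Finset.sum_div, Finset.sum_comm]
    have h5 : ∀ b : {j : Fin d // j ≠ i} → Fin l,
        ∑ x, (2 * h (x + rest i b + l • (ev i : Tor d M)) ^ 2 + 2 * h (x + rest i b) ^ 2) =
          4 * sqn h := by
      intro b
      rw [Finset.sum_add_distrib, ← Finset.mul_sum, ← Finset.mul_sum]
      have e1 : ∑ x, h (x + rest i b + l • (ev i : Tor d M)) ^ 2 = sqn h := by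
        have := Equiv.sum_comp (Equiv.addRight (rest i b + l • (ev i : Tor d M)))
          (fun x => h x ^ 2)
        unfold sqn
        rw [← this]
        exact Finset.sum_congr rfl fun x _ => by rw [Equiv.coe_addRight, add_assoc]
      have e2 : ∑ x, h (x + rest i b) ^ 2 = sqn h :=
        Equiv.sum_comp (Equiv.addRight (rest i b : Tor d M)) (fun x => h x ^ 2)
      rw [e1, e2]; ring
    rw [Finset.sum_congr rfl fun b _ => h5 b, Finset.sum_const, Finset.card_univ, nsmul_eq_mul,
      ← hK]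
    field_simp
  rw [energy_eq]
  refine (Finset.sum_le_sum fun i _ => key i).trans (le_of_eq ?_)
  rw [Finset.sum_const, Finset.card_univ, Fintype.card_fin, nsmul_eq_mul]
  ring

/-- coercivity of `AM z V` on averages -/
theorem coer1 {l : ℕ} {z μ E δ : ℝ} {V : Tor d M → ℝ} (hP : Par d M l z μ E)
    (hδ : δ ≤ 1 / 50) (hF : FlatD δ z μ V) (u : Tor d M → ℝ) :
    2 / 5 * energy (QM d M l *ᵥ u) ≤
      ip u (AM z V *ᵥ u) + 4 * d * δ ^ 2 / (l : ℝ) ^ 2 * sqn u := by
  have hμ := hP.hμ
  have hl1 := hP.hl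
  have hl0 : (0 : ℝ) < l := by exact_mod_cast hl1
  have hd0 : (0 : ℝ) ≤ d := by positivity
  set D := DD z V with hD
  have hDge : ∀ x, 49 / 50 * μ ≤ D x := fun x => by
    have := (abs_le.1 (hF.2.2 x)).1
    have h2 : δ * μ ≤ 1 / 50 * μ := mul_le_mul_of_nonneg_right hδ hμ.le
    linarith
  have hDpos : ∀ x, 0 < D x := fun x => lt_of_lt_of_le (by positivity) (hDge x)
  set v : Tor d M → ℝ := fun x => u x / D x with hv
  have e : (fun y => D y * v y) = u := by
    funext y; exact mul_div_cancel₀ _ (hDpos y).ne'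
  have e' : ∀ y, D y * v y = u y := fun y => congrFun e y
  have hdoob := AM_doob z V D v
  simp only [e'] at hdoob
  rw [AM_DD hF.2.1] at hdoob
  -- lower bound of the form
  have h1 : (49 / 50 * μ) ^ 2 * energy v ≤ ip u (AM z V *ᵥ u) := by
    have hen : (49 / 50 * μ) ^ 2 * energy v ≤
        ∑ x, ∑ i : Fin d, D x * D (x + ev i) * (v (x + ev i) - v x) ^ 2 := by
      unfold energy
      rw [Finset.mul_sum]
      refine Finset.sum_le_sum fun y _ => ?_
      rw [Finset.mul_sum]
      refine Finset.sum_le_sum fun i _ => ?_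
      refine mul_le_mul_of_nonneg_right ?_ (sq_nonneg _)
      rw [sq]
      exact mul_le_mul (hDge y) (hDge (y + ev i)) (by positivity) (hDpos y).le
    have hnn : 0 ≤ ∑ x, D x * (1 : Tor d M → ℝ) x * v x ^ 2 :=
      Finset.sum_nonneg fun x _ => by
        have := (hDpos x).le
        simp only [Pi.one_apply, mul_one]; positivity
    unfold ip
    rw [hdoob]
    linarith
  -- `μ² ‖v‖² ≤ (25/24) ‖u‖²`
  have h2 : μ ^ 2 * sqn v ≤ 25 / 24 * sqn u := by
    have : (49 / 50 * μ) ^ 2 * sqn v ≤ sqn u := by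
      unfold sqn
      rw [Finset.mul_sum]
      refine Finset.sum_le_sum fun x _ => ?_
      rw [← e' x, mul_pow (D x)]
      exact mul_le_mul_of_nonneg_right (pow_le_pow_left₀ (by positivity) (hDge x) 2) (sq_nonneg _)
    have h3 := sqn_nonneg u
    nlinarith
  -- decomposition
  set h : Tor d M → ℝ := fun x => (D x - μ) * v x with hh
  have hdec : u = μ • v + h := by
    funext x
    rw [Pi.add_apply, Pi.smul_apply, smul_eq_mul, ← e' x, hh]
    ring
  have h4 : sqn h ≤ δ ^ 2 * (25 / 24 * sqn u) := by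
    have h5 : sqn h ≤ (δ * μ) ^ 2 * sqn v := by
      unfold sqn
      rw [Finset.mul_sum]
      refine Finset.sum_le_sum fun x _ => ?_
      rw [hh, mul_pow]
      refine mul_le_mul_of_nonneg_right ?_ (sq_nonneg _)
      exact sq_le_sq' (abs_le.1 (hF.2.2 x)).1 (abs_le.1 (hF.2.2 x)).2
    calc sqn h ≤ (δ * μ) ^ 2 * sqn v := h5
      _ = δ ^ 2 * (μ ^ 2 * sqn v) := by ring
      _ ≤ _ := mul_le_mul_of_nonneg_left h2 (sq_nonneg _)
  have h6 : energy (QM d M l *ᵥ u) ≤ 2 * (μ ^ 2 * energy v) +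
      2 * (4 * d / (l : ℝ) ^ 2 * (δ ^ 2 * (25 / 24 * sqn u))) := by
    have h7 : energy (QM d M l *ᵥ u) ≤ 2 * energy (QM d M l *ᵥ (μ • v)) +
        2 * energy (QM d M l *ᵥ h) := by
      conv_lhs => rw [hdec]
      rw [Matrix.mulVec_add]
      exact energy_add_le _ _
    have h8 : energy (QM d M l *ᵥ (μ • v)) ≤ μ ^ 2 * energy v := by
      rw [← energy_smul]; exact energy_QM_le hl1 _
    have h9 : energy (QM d M l *ᵥ h) ≤ 4 * d / (l : ℝ) ^ 2 * (δ ^ 2 * (25 / 24 * sqn u)) :=
      (energy_QM_le' hl1 h).trans (mul_le_mul_of_nonneg_left h4 (by positivity))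
    linarith
  have h10 := energy_nonneg v
  have h11 : 0 ≤ μ ^ 2 * energy v := by positivity
  have h12 : 0 ≤ 4 * d / (l : ℝ) ^ 2 * (δ ^ 2 * sqn u) := by
    have := sqn_nonneg u
    positivity
  have h13 : 4 * d / (l : ℝ) ^ 2 * (δ ^ 2 * (25 / 24 * sqn u)) =
      25 / 24 * (4 * d / (l : ℝ) ^ 2 * (δ ^ 2 * sqn u)) := by ring
  have h14 : 4 * d * δ ^ 2 / (l : ℝ) ^ 2 * sqn u = 4 * d / (l : ℝ) ^ 2 * (δ ^ 2 * sqn u) := by ring
  rw [h14]
  rw [h13] at h6
  nlinarith

/-- Module COER. -/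
theorem coer (hGap : GapStmt) : CoerStmt := by
  intro d M l _ z μ E δ V hP hδ0 hδ hF w o ho hw
  obtain ⟨-, hpos, hlow, -, -, -, -, -⟩ := hGap d M l z μ E V hP (flat_mono hP.hμ hδ hF)
  have hl1 := hP.hl
  have hl0 : (0 : ℝ) < l := by exact_mod_cast hl1
  have hd0 : (0 : ℝ) < d := by exact_mod_cast hP.hd
  have hs := sL_pos (d := d) hP.hd hP.hl
  set γ : ℝ := d * ((z - E) * (l : ℝ) ^ 2 + 4 * d * δ ^ 2) with hγ
  have hγ0 : 0 ≤ γ := by
    have := hP.hE
    positivity
  set u := GP l E V *ᵥ ((QM d M l)ᵀ *ᵥ w) with hu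
  set b := QM d M l *ᵥ u with hb
  have hAu : AP l E V *ᵥ u = (QM d M l)ᵀ *ᵥ w := mulVec_inv hpos _
  have hform : ip u (AP l E V *ᵥ u) = ip w b := by
    rw [hAu, ip_mulVec_transpose, ← hb, ip_comm]
  have hB : ip w (BB l E V *ᵥ w) = sL d l * ip w b := by
    unfold BB
    rw [Matrix.smul_mulVec, ip_smul_right, ← Matrix.mulVec_mulVec, ← Matrix.mulVec_mulVec]
  -- the lower bound
  have hkey : 2 / 5 * energy b + sL d l * sqn b ≤ (1 + γ) * ip w b := by
    have h1 := coer1 hP hδ hF u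
    have h2 := AP_form l z E V u
    have h3 := hlow u
    rw [hform] at h2 h3
    have h4 : γ * (1 / (d * (l : ℝ) ^ 2) * sqn u) ≤ γ * ip w b :=
      mul_le_mul_of_nonneg_left h3 hγ0
    have h5 : γ * (1 / (d * (l : ℝ) ^ 2) * sqn u) =
        (z - E) * sqn u + 4 * d * δ ^ 2 / (l : ℝ) ^ 2 * sqn u := by
      rw [hγ]; field_simp
    rw [← hb] at h1 h2
    linarith
  -- completing the square
  set κ := sL d l + 2 / 5 * o with hκ
  have hκ0 : 0 < κ := by positivity
  set t := (1 + γ) / κ with ht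
  have htκ : t * κ = 1 + γ := div_mul_cancel₀ _ hκ0.ne'
  have h1 : 0 ≤ 2 / 5 * energy (b - t • w) + sL d l * sqn (b - t • w) := by
    have := energy_nonneg (b - t • w)
    have := sqn_nonneg (b - t • w)
    positivity
  have h2 : energy (b - t • w) = energy b - 2 * t * (o * ip w b) + t ^ 2 * (o * sqn w) := by
    rw [energy_sub, enb_comm, enb_smul_left, enb_eig hw, energy_smul, ← enb_self w, enb_eig hw,
      ip_self]
    ring
  have h3 : sqn (b - t • w) = sqn b - 2 * t * ip w b + t ^ 2 * sqn w := by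
    rw [sqn_sub, ip_smul_right, sqn_smul, ip_comm b w]
    ring
  rw [h2, h3] at h1
  have h4 : 2 * (t * κ) * ip w b - t * (t * κ) * sqn w ≤ 2 / 5 * energy b + sL d l * sqn b := by
    rw [hκ]
    linarith
  rw [htκ] at h4
  have h5 : (1 + γ) * ip w b ≤ (1 + γ) * (t * sqn w) := by
    have : t * (1 + γ) * sqn w = (1 + γ) * (t * sqn w) := by ring
    linarith
  have h6 : ip w b ≤ t * sqn w := le_of_mul_le_mul_left h5 (by linarith)
  rw [hB]
  refine (mul_le_mul_of_nonneg_left h6 hs.le).trans (le_of_eq ?_)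
  have h7 : sL d l / κ = 2 / (2 + 2 / 5 * d * (l : ℝ) ^ 2 * o) := by
    rw [hκ]
    unfold sL
    field_simp
  calc sL d l * (t * sqn w) = (1 + γ) * (sL d l / κ) * sqn w := by rw [ht]; ring
    _ = _ := by rw [h7]

end Pool.Agent.IR.H48
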