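import Pool.Agent.Helper41_IR.Stmts

/-!
# IR: module GROW
-/

set_option autoImplicit false
set_option linter.unusedSectionVars false

open MeasureTheory ProbabilityTheory

open scoped ENNReal NNReal BigOperators

noncomputable section

namespace Pool.Agent.IR.H48

open Matrix Pool.Agent.Anderson Pool.Agent.Loc Pool.Agent.BED Pool.Agent.IR

variable {d M : ℕ} [NeZero M]

theorem near_card (x : Tor d M) (n : ℕ) :
    (((Finset.univ : Finset (Tor d M)).filter fun y => nd (x - y) ≤ n).card : ℝ) ≤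
      (2 * n + 1) ^ d := by
  have h : ((Finset.univ : Finset (Tor d M)).filter fun y => nd (x - y) ≤ n).card ≤
      (Fintype.piFinset fun _ : Fin d => Finset.Icc (-(n : ℤ)) n).card := by
    refine Finset.card_le_card_of_injOn (fun y i => ((x - y) i).valMinAbs) ?_ ?_
    · intro y hy
      have hy' : nd (x - y) ≤ n := (Finset.mem_filter.1 hy).2
      refine Finset.mem_coe.2 (Fintype.mem_piFinset.2 fun i => ?_)
      have h1 : ((x - y) i).valMinAbs.natAbs ≤ n :=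
        (Finset.single_le_sum (f := fun i => ((x - y) i).valMinAbs.natAbs)
          (fun j _ => Nat.zero_le _) (Finset.mem_univ i)).trans hy'
      rw [Finset.mem_Icc]
      show -(n : ℤ) ≤ ((x - y) i).valMinAbs ∧ ((x - y) i).valMinAbs ≤ n
      omega
    · intro y _ y' _ hyy
      have h2 : x - y = x - y' := by
        funext i
        exact ZMod.injective_valMinAbs (congrFun hyy i)
      exact sub_right_injective h2
  have h2 : (Fintype.piFinset fun _ : Fin d => Finset.Icc (-(n : ℤ)) n).card = (2 * n + 1) ^ d := by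
    rw [Fintype.card_piFinset_const, Int.card_Icc]
    congr 1
    omega
  rw [h2] at h
  exact_mod_cast h

theorem one_le_log {M : ℕ} (hM : 3 ≤ M) : 1 ≤ Real.log M := by
  have h3 : (3 : ℝ) ≤ M := by exact_mod_cast hM
  rw [Real.le_log_iff_exp_le (by linarith)]
  have := Real.exp_one_lt_d9
  linarith

/-- Module GROW. -/
theorem grow (hSup : SupStmt) (hCt : CtStmt) : GrowStmt := by
  intro d hd
  obtain ⟨C0, hC0, h0⟩ := hSup d hd
  obtain ⟨C1, hC1, h1⟩ := hCt d hd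
  refine ⟨C0 + 2 * ((6 * d ^ 2 + 3) ^ d * C0 + C1 ^ 2), by positivity, ?_⟩
  intro M l _ z μ E V hP hF x
  have hl : 1 ≤ l := hP.hl
  have hl1 : (1 : ℝ) ≤ l := by exact_mod_cast hl
  have hl0 : (0 : ℝ) < l := by linarith
  have hd1 : (1 : ℝ) ≤ d := by exact_mod_cast hd
  have hL := one_le_log hP.hM
  have hM0 : (0 : ℝ) < M := by
    have := hP.hM
    have : (3 : ℝ) ≤ M := by exact_mod_cast this
    linarith
  set L := Real.log M with hLdef
  have hLd : 1 ≤ L ^ d := one_le_pow₀ hL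
  have hs := h0 M l z μ E V hP hF x
  have hc := (h1 M l z μ E V hP hF).1 x
  set a : Tor d M → ℝ := fun y => (GP l E V * (QM d M l)ᵀ) x y with ha
  have hld : (0 : ℝ) < (l : ℝ) ^ d := by positivity
  refine ⟨hs.trans (mul_le_mul_of_nonneg_right (by
    have : 0 ≤ 2 * ((6 * (d : ℝ) ^ 2 + 3) ^ d * C0 + C1 ^ 2) := by positivity
    linarith) (by positivity)), ?_⟩
  have hs' : ∑ y, a y ^ 2 ≤ C0 * (l : ℝ) ^ 4 / (l : ℝ) ^ d := by
    rw [le_div_iff₀ hld, mul_comm]; exact hs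
  set n0 := ⌈3 * d * d * l * L⌉₊ with hn0
  have hn0ge : 3 * d * d * l * L ≤ n0 := Nat.le_ceil _
  have hn0le : (2 * (n0 : ℝ) + 1) ≤ (6 * d ^ 2 + 3) * l * L := by
    have h2 : (n0 : ℝ) < 3 * d * d * l * L + 1 := Nat.ceil_lt_add_one (by positivity)
    have h3 : 1 ≤ (l : ℝ) * L := one_le_mul_of_one_le_of_one_le hl1 hL
    nlinarith
  set S := (Finset.univ : Finset (Tor d M)).filter fun y => nd (x - y) ≤ n0 with hS
  have hsplit : ∑ y, |a y| = ∑ y ∈ S, |a y| +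
      ∑ y ∈ (Finset.univ : Finset (Tor d M)).filter (fun y => ¬ nd (x - y) ≤ n0), |a y| :=
    (Finset.sum_filter_add_sum_filter_not _ _ _).symm
  -- near part
  have hnear : (∑ y ∈ S, |a y|) ^ 2 ≤ (6 * d ^ 2 + 3) ^ d * C0 * L ^ d * (l : ℝ) ^ 4 := by
    have h2 : (∑ y ∈ S, |a y|) ^ 2 ≤ (S.card : ℝ) * ∑ y ∈ S, a y ^ 2 := by
      have := sq_sum_le_card_mul_sum_sq (s := S) (f := fun y => |a y|)
      simpa using this
    have h3 : ∑ y ∈ S, a y ^ 2 ≤ ∑ y, a y ^ 2 :=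
      Finset.sum_le_sum_of_subset_of_nonneg (Finset.subset_univ _) fun y _ _ => sq_nonneg _
    have h4 : (S.card : ℝ) ≤ ((6 * d ^ 2 + 3) * l * L) ^ d :=
      (near_card x n0).trans (pow_le_pow_left₀ (by positivity) hn0le d)
    calc (∑ y ∈ S, |a y|) ^ 2 ≤ (S.card : ℝ) * ∑ y ∈ S, a y ^ 2 := h2
      _ ≤ ((6 * d ^ 2 + 3) * l * L) ^ d * (C0 * (l : ℝ) ^ 4 / (l : ℝ) ^ d) :=
          mul_le_mul h4 (h3.trans hs') (Finset.sum_nonneg fun y _ => sq_nonneg _) (by positivity)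
      _ = _ := by rw [mul_pow, mul_pow]; field_simp
  -- far part
  have hfar : ∑ y ∈ (Finset.univ : Finset (Tor d M)).filter (fun y => ¬ nd (x - y) ≤ n0), |a y| ≤
      C1 * (l : ℝ) ^ 2 := by
    have h2 : ∀ y ∈ (Finset.univ : Finset (Tor d M)).filter (fun y => ¬ nd (x - y) ≤ n0),
        |a y| ≤ C1 * (l : ℝ) ^ 2 / (M : ℝ) ^ d := by
      intro y hy
      have hy' : n0 < nd (x - y) := not_le.1 (Finset.mem_filter.1 hy).2
      refine (hc y).trans ?_
      rw [div_eq_mul_inv]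
      refine mul_le_mul_of_nonneg_left ?_ (by positivity)
      have h3 : d * L ≤ (nd (x - y) : ℝ) / (3 * d * l) := by
        rw [le_div_iff₀ (by positivity)]
        have : (n0 : ℝ) ≤ nd (x - y) := by exact_mod_cast hy'.le
        calc d * L * (3 * d * l) = 3 * d * d * l * L := by ring
          _ ≤ _ := hn0ge.trans this
      have h4 : ((M : ℝ) ^ d)⁻¹ = Real.exp (-(d * L)) := by
        rw [Real.exp_neg, hLdef, ← Real.log_pow, Real.exp_log (by positivity)]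
      rw [h4]
      exact Real.exp_le_exp.2 (neg_le_neg h3)
    have hcard : (Fintype.card (Tor d M) : ℝ) = (M : ℝ) ^ d := by
      rw [Fintype.card_fun, ZMod.card, Fintype.card_fin]; push_cast; rfl
    calc _ ≤ ∑ y ∈ (Finset.univ : Finset (Tor d M)).filter (fun y => ¬ nd (x - y) ≤ n0),
          C1 * (l : ℝ) ^ 2 / (M : ℝ) ^ d := Finset.sum_le_sum h2
      _ ≤ ∑ _y : Tor d M, C1 * (l : ℝ) ^ 2 / (M : ℝ) ^ d :=
          Finset.sum_le_sum_of_subset_of_nonneg (Finset.subset_univ _) fun y _ _ => by positivity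
      _ = C1 * (l : ℝ) ^ 2 := by
          rw [Finset.sum_const, Finset.card_univ, nsmul_eq_mul, hcard]
          field_simp
  have hfar0 : 0 ≤ ∑ y ∈ (Finset.univ : Finset (Tor d M)).filter
      (fun y => ¬ nd (x - y) ≤ n0), |a y| := Finset.sum_nonneg fun y _ => abs_nonneg _
  have hfar2 := pow_le_pow_left₀ hfar0 hfar 2
  rw [hsplit]
  have h5 : C1 ^ 2 * (l : ℝ) ^ 4 ≤ C1 ^ 2 * L ^ d * (l : ℝ) ^ 4 := by
    have : 0 ≤ C1 ^ 2 * (l : ℝ) ^ 4 := by positivity
    nlinarith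
  have h6 : 0 ≤ C0 * L ^ d * (l : ℝ) ^ 4 := by positivity
  have h7 : (C1 * (l : ℝ) ^ 2) ^ 2 = C1 ^ 2 * (l : ℝ) ^ 4 := by ring
  rw [h7] at hfar2
  calc _ ≤ 2 * (∑ y ∈ S, |a y|) ^ 2 + 2 * (∑ y ∈ (Finset.univ : Finset (Tor d M)).filter
      (fun y => ¬ nd (x - y) ≤ n0), |a y|) ^ 2 := by
        nlinarith [sq_nonneg (∑ y ∈ S, |a y| - ∑ y ∈ (Finset.univ : Finset (Tor d M)).filter
          (fun y => ¬ nd (x - y) ≤ n0), |a y|)]
    _ ≤ 2 * ((6 * d ^ 2 + 3) ^ d * C0 * L ^ d * (l : ℝ) ^ 4) +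
          2 * (C1 ^ 2 * L ^ d * (l : ℝ) ^ 4) := by linarith
    _ ≤ _ := by
        have : (C0 + 2 * ((6 * (d : ℝ) ^ 2 + 3) ^ d * C0 + C1 ^ 2)) * L ^ d * (l : ℝ) ^ 4 =
          C0 * L ^ d * (l : ℝ) ^ 4 + (2 * ((6 * d ^ 2 + 3) ^ d * C0 * L ^ d * (l : ℝ) ^ 4) +
          2 * (C1 ^ 2 * L ^ d * (l : ℝ) ^ 4)) := by ring
        rw [this]
        linarith

end Pool.Agent.IR.H48
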