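import Pool.Agent.Helper48_IR.Zero
import Pool.Agent.Helper32_BED.Heat
import Pool.Agent.Helper32_BED.Nash
import Pool.Agent.Helper32_BED.Seq

/-!
# IR: module SUP
-/

set_option autoImplicit false
set_option linter.unusedSectionVars false

open MeasureTheory ProbabilityTheory

open scoped ENNReal NNReal BigOperators

noncomputable section

namespace Pool.Agent.IR.H48

open Matrix Pool.Agent.Anderson Pool.Agent.Loc Pool.Agent.BED Pool.Agent.IR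

variable {d M : ℕ} [NeZero M]

theorem abs_le_of_sq {a b c : ℝ} (hc : 0 ≤ c) (h : a ^ 2 ≤ c ^ 2 * b) :
    |a| ≤ c * Real.sqrt b := by
  rw [← Real.sqrt_sq_eq_abs]
  calc Real.sqrt (a ^ 2) ≤ Real.sqrt (c ^ 2 * b) := Real.sqrt_le_sqrt h
    _ = c * Real.sqrt b := by rw [Real.sqrt_mul (sq_nonneg c), Real.sqrt_sq hc]

theorem telescope (z : ℝ) (V g : Tor d M → ℝ) (x : Tor d M) (n : ℕ) :
    g x = (TM z V ^ n *ᵥ g) x +
      1 / (8 * d) * ∑ k ∈ Finset.range n, (TM z V ^ k *ᵥ (AM z V *ᵥ g)) x := by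
  induction n with
  | zero => simp
  | succ n ih =>
      have h1 : (TM z V ^ (n + 1) *ᵥ g) x =
          (TM z V ^ n *ᵥ g) x - 1 / (8 * d) * (TM z V ^ n *ᵥ (AM z V *ᵥ g)) x := by
        have h2 : TM z V *ᵥ g = g - (1 / (8 * (d : ℝ))) • (AM z V *ᵥ g) := by
          funext y
          rw [H32.TM_mulVec, Pi.sub_apply, Pi.smul_apply, smul_eq_mul]
        rw [pow_succ, ← Matrix.mulVec_mulVec, h2, Matrix.mulVec_sub, Matrix.mulVec_smul,
          Pi.sub_apply, Pi.smul_apply, smul_eq_mul]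
      rw [Finset.sum_range_succ, h1, mul_add]
      linarith

theorem row_le {z μ : ℝ} {V : Tor d M → ℝ} (hd : 1 ≤ d) (hz : z ≤ 2 * d + 1) (hμ : 0 < μ)
    (hF : FlatD (1 / 50) z μ V) (x : Tor d M) (n : ℕ) : ∑ y, (TM z V ^ n) x y ≤ 21 / 20 := by
  have h := H32.row_sum hd hz hF.1 hF.2.1 x n
  have hle : DD z V x ≤ 51 / 50 * μ := by
    have := (abs_le.1 (hF.2.2 x)).2; linarith
  have hge : ∀ y, 49 / 50 * μ ≤ DD z V y := fun y => by
    have := (abs_le.1 (hF.2.2 y)).1; linarith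
  have h1 : (∑ y, (TM z V ^ n) x y) * (49 / 50 * μ) ≤ 51 / 50 * μ := by
    rw [Finset.sum_mul]
    refine le_trans (Finset.sum_le_sum fun y _ => ?_) (h.trans hle)
    exact mul_le_mul_of_nonneg_left (hge y) (H32.row_nonneg hd hz hF.1 x n y)
  nlinarith

theorem pow_mulVec_le {z μ : ℝ} {V : Tor d M → ℝ} (hd : 1 ≤ d) (hz : z ≤ 2 * d + 1) (hμ : 0 < μ)
    (hF : FlatD (1 / 50) z μ V) (x : Tor d M) (n : ℕ) {h : Tor d M → ℝ} {H : ℝ} (hH : 0 ≤ H)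
    (hh : ∀ y, |h y| ≤ H) : |(TM z V ^ n *ᵥ h) x| ≤ 21 / 20 * H := by
  have h0 := fun y => H32.row_nonneg hd hz hF.1 x n y
  calc |(TM z V ^ n *ᵥ h) x| = |∑ y, (TM z V ^ n) x y * h y| := rfl
    _ ≤ ∑ y, |(TM z V ^ n) x y * h y| := Finset.abs_sum_le_sum_abs _ _
    _ ≤ ∑ y, (TM z V ^ n) x y * H := by
        refine Finset.sum_le_sum fun y _ => ?_
        rw [abs_mul, abs_of_nonneg (h0 y)]
        exact mul_le_mul_of_nonneg_left (hh y) (h0 y)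
    _ = (∑ y, (TM z V ^ n) x y) * H := by rw [Finset.sum_mul]
    _ ≤ 21 / 20 * H := mul_le_mul_of_nonneg_right (row_le hd hz hμ hF x n) hH

/-- the heat kernel at time `l²` -/
theorem heat_at {l : ℕ} {z μ E : ℝ} {V : Tor d M → ℝ} (hP : Par d M l z μ E)
    (hF : FlatD (1 / 50) z μ V) (x : Tor d M) :
    (l : ℝ) ^ d * ∑ y, ((TM z V ^ (l ^ 2)) x y) ^ 2 ≤ KH d := by
  have hμ := hP.hμ
  have hl : 0 < l := hP.hl
  have hl0 : (0 : ℝ) < l := by exact_mod_cast hl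
  have hheat := H32.heat H32.nash H32.seq d M hP.hd z V (49 / 50 * μ) hP.hz hF.1 hF.2.1
    (by positivity) (fun x => by have := (abs_le.1 (hF.2.2 x)).1; linarith)
    (fun x => by have := (abs_le.1 (hF.2.2 x)).2; linarith)
  have h1 := hheat.2.2.1 x (l ^ 2) (by
    have := hP.hlM
    nlinarith)
  have hKH : 0 ≤ KH d := by unfold KH; positivity
  have h2 : ((l ^ 2 : ℕ) : ℝ) + 1 = (l : ℝ) ^ 2 + 1 := by push_cast; ring
  rw [h2] at h1
  have h3 : ((l : ℝ) ^ 2 + 1) ^ (-(d : ℝ) / 2) ≤ ((l : ℝ) ^ 2) ^ (-(d : ℝ) / 2) := by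
    refine Real.rpow_le_rpow_of_nonpos (by positivity) (by linarith) ?_
    have : (0 : ℝ) ≤ d := by positivity
    linarith
  have h4 : ((l : ℝ) ^ 2) ^ (-(d : ℝ) / 2) = ((l : ℝ) ^ d)⁻¹ := by
    rw [← Real.rpow_natCast (l : ℝ) 2, ← Real.rpow_mul hl0.le,
      show ((2 : ℕ) : ℝ) * (-(d : ℝ) / 2) = -(d : ℝ) by push_cast; ring, Real.rpow_neg hl0.le,
      Real.rpow_natCast]
  have hld : (0 : ℝ) < (l : ℝ) ^ d := by positivity
  calc (l : ℝ) ^ d * ∑ y, ((TM z V ^ (l ^ 2)) x y) ^ 2 ≤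
        (l : ℝ) ^ d * (KH d * ((l : ℝ) ^ d)⁻¹) := by
        refine mul_le_mul_of_nonneg_left (h1.trans ?_) hld.le
        rw [← h4]
        exact mul_le_mul_of_nonneg_left h3 hKH
    _ = KH d := by field_simp

/-- the sup bound -/
theorem sup_bound (hGap : GapStmt) {l : ℕ} {z μ E : ℝ} {V : Tor d M → ℝ} (hP : Par d M l z μ E)
    (hF : FlatD (1 / 50) z μ V) (w : Tor d M → ℝ) (x : Tor d M) :
    (l : ℝ) ^ d * ((GP l E V *ᵥ ((QM d M l)ᵀ *ᵥ w)) x) ^ 2 ≤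
      (2 * (Real.sqrt (KH d) * d + 1)) ^ 2 * (l : ℝ) ^ 4 * sqn w := by
  obtain ⟨-, hpos, -, hG, -, -, -, -⟩ := hGap d M l z μ E V hP hF
  have hμ := hP.hμ
  have hl1 := hP.hl
  have hl0 : (0 : ℝ) < l := by exact_mod_cast hl1
  have hld : (0 : ℝ) < (l : ℝ) ^ d := by positivity
  have hd1 : (1 : ℝ) ≤ d := by exact_mod_cast hP.hd
  have hs := sL_pos (d := d) hP.hd hP.hl
  have hsd : sL d l * (d * (l : ℝ) ^ 2) = 2 := by
    unfold sL; field_simp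
  have hKH : 0 ≤ KH d := by unfold KH; positivity
  set g := GP l E V *ᵥ ((QM d M l)ᵀ *ᵥ w) with hg
  -- the norm of `g`
  have hgn : sqn g ≤ (d * (l : ℝ) ^ 2) ^ 2 * sqn w :=
    (hG _).trans (mul_le_mul_of_nonneg_left (sqn_QMt_le hl1 w) (by positivity))
  set a := Real.sqrt (sqn w / (l : ℝ) ^ d) with ha
  have ha0 : 0 ≤ a := Real.sqrt_nonneg _
  have ha2 : a ^ 2 = sqn w / (l : ℝ) ^ d := Real.sq_sqrt (div_nonneg (sqn_nonneg w) hld.le)
  -- the maximum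
  obtain ⟨x0, -, hx0⟩ := Finset.exists_max_image (Finset.univ : Finset (Tor d M)) (fun x => |g x|)
    ⟨0, Finset.mem_univ 0⟩
  set m := |g x0| with hm
  have hm0 : 0 ≤ m := abs_nonneg _
  have hgm : ∀ x, |g x| ≤ m := fun x => hx0 x (Finset.mem_univ x)
  -- the equation
  set h := AM z V *ᵥ g with hh
  have hheq : ∀ y, h y = ((QM d M l)ᵀ *ᵥ w) y + (z - E) * g y -
      sL d l * ((QM d M l)ᵀ *ᵥ (QM d M l *ᵥ g)) y := by
    intro y
    have h1 : AP l E V *ᵥ g = (QM d M l)ᵀ *ᵥ w := mulVec_inv hpos _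
    rw [AP_mulVec, AM_E_mulVec z E] at h1
    have h2 := congrFun h1 y
    simp only [Pi.add_apply, Pi.sub_apply, Pi.smul_apply, smul_eq_mul] at h2
    rw [hh]
    linarith
  have hb1 : ∀ y, |((QM d M l)ᵀ *ᵥ w) y| ≤ a := by
    intro y
    have h1 := QMt_sup hl1 hP.hlM.le w y
    have h2 : ((QM d M l)ᵀ *ᵥ w) y ^ 2 ≤ 1 ^ 2 * (sqn w / (l : ℝ) ^ d) := by
      rw [one_pow, one_mul, le_div_iff₀ hld]; linarith
    have := abs_le_of_sq zero_le_one h2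
    rwa [one_mul] at this
  have hb2 : ∀ y, |((QM d M l)ᵀ *ᵥ (QM d M l *ᵥ g)) y| ≤ d * (l : ℝ) ^ 2 * a := by
    intro y
    have h1 := QMt_sup hl1 hP.hlM.le (QM d M l *ᵥ g) y
    have h2 := (sqn_QM_le hl1 g).trans hgn
    have h3 : ((QM d M l)ᵀ *ᵥ (QM d M l *ᵥ g)) y ^ 2 ≤
        (d * (l : ℝ) ^ 2) ^ 2 * (sqn w / (l : ℝ) ^ d) := by
      rw [← mul_div_assoc, le_div_iff₀ hld]; linarith
    exact abs_le_of_sq (by positivity) h3
  have hhb : ∀ y, |h y| ≤ 3 * a + (z - E) * m := by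
    intro y
    rw [hheq y]
    have h1 := hb1 y
    have h2 := mul_le_mul_of_nonneg_left (hb2 y) hs.le
    have h3 := mul_le_mul_of_nonneg_left (hgm y) hP.hE
    have h4 : sL d l * (d * (l : ℝ) ^ 2 * a) = 2 * a := by rw [← mul_assoc, hsd]
    have h6 : |sL d l * ((QM d M l)ᵀ *ᵥ (QM d M l *ᵥ g)) y| =
        sL d l * |((QM d M l)ᵀ *ᵥ (QM d M l *ᵥ g)) y| := by rw [abs_mul, abs_of_pos hs]
    rw [h4, ← h6] at h2
    have h5 : |(z - E) * g y| ≤ (z - E) * m := by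
      rw [abs_mul, abs_of_nonneg hP.hE]; exact h3
    calc |((QM d M l)ᵀ *ᵥ w) y + (z - E) * g y -
          sL d l * ((QM d M l)ᵀ *ᵥ (QM d M l *ᵥ g)) y| ≤
          |((QM d M l)ᵀ *ᵥ w) y + (z - E) * g y| +
            |sL d l * ((QM d M l)ᵀ *ᵥ (QM d M l *ᵥ g)) y| := abs_sub _ _
      _ ≤ |((QM d M l)ᵀ *ᵥ w) y| + |(z - E) * g y| +
            |sL d l * ((QM d M l)ᵀ *ᵥ (QM d M l *ᵥ g)) y| := by
          gcongr; exact abs_add_le _ _
      _ ≤ _ := by linarith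
  have hH0 : 0 ≤ 3 * a + (z - E) * m := (abs_nonneg _).trans (hhb x0)
  -- the main term
  have hmain : |(TM z V ^ (l ^ 2) *ᵥ g) x0| ≤ Real.sqrt (KH d) * (d * (l : ℝ) ^ 2) * a := by
    have h1 : ((TM z V ^ (l ^ 2) *ᵥ g) x0) ^ 2 ≤
        (∑ y, ((TM z V ^ (l ^ 2)) x0 y) ^ 2) * sqn g :=
      Finset.sum_mul_sq_le_sq_mul_sq _ _ _
    have h2 := heat_at hP hF x0
    have h3 : ∑ y, ((TM z V ^ (l ^ 2)) x0 y) ^ 2 ≤ KH d / (l : ℝ) ^ d := by
      rw [le_div_iff₀ hld]; linarith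
    have h4 : ((TM z V ^ (l ^ 2) *ᵥ g) x0) ^ 2 ≤
        (Real.sqrt (KH d) * (d * (l : ℝ) ^ 2)) ^ 2 * (sqn w / (l : ℝ) ^ d) := by
      refine h1.trans ((mul_le_mul h3 hgn (sqn_nonneg g) (by positivity)).trans (le_of_eq ?_))
      rw [mul_pow (Real.sqrt (KH d)), Real.sq_sqrt hKH]; ring
    exact abs_le_of_sq (by positivity) h4
  have htel := telescope z V g x0 (l ^ 2)
  have hsum : |∑ k ∈ Finset.range (l ^ 2), (TM z V ^ k *ᵥ (AM z V *ᵥ g)) x0| ≤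
      (l : ℝ) ^ 2 * (21 / 20 * (3 * a + (z - E) * m)) := by
    refine (Finset.abs_sum_le_sum_abs _ _).trans ?_
    refine (Finset.sum_le_sum fun k _ =>
      pow_mulVec_le hP.hd hP.hz hμ hF x0 k hH0 hhb).trans (le_of_eq ?_)
    rw [Finset.sum_const, Finset.card_range, nsmul_eq_mul]
    push_cast; ring
  have hmle : m ≤ Real.sqrt (KH d) * (d * (l : ℝ) ^ 2) * a +
      1 / (8 * d) * ((l : ℝ) ^ 2 * (21 / 20 * (3 * a + (z - E) * m))) := by
    have e : m = |(TM z V ^ (l ^ 2) *ᵥ g) x0 +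
        1 / (8 * d) * ∑ k ∈ Finset.range (l ^ 2), (TM z V ^ k *ᵥ (AM z V *ᵥ g)) x0| :=
      congrArg abs htel
    refine (le_of_eq e).trans ?_
    refine (abs_add_le _ _).trans (add_le_add hmain ?_)
    rw [abs_mul, abs_of_nonneg (by positivity : (0 : ℝ) ≤ 1 / (8 * d))]
    exact mul_le_mul_of_nonneg_left hsum (by positivity)
  have hzl : (z - E) * (l : ℝ) ^ 2 ≤ 7 / 10 := by
    refine hP.hE2.trans ?_
    rw [div_le_div_iff₀ (by positivity) (by norm_num)]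
    linarith
  have hmle2 : m ≤ 2 * (Real.sqrt (KH d) * d + 1) * (l : ℝ) ^ 2 * a := by
    have h1 : 1 / (8 * (d : ℝ)) * ((l : ℝ) ^ 2 * (21 / 20 * (3 * a + (z - E) * m))) ≤
        (1 / 8) * ((l : ℝ) ^ 2 * (21 / 20 * (3 * a + (z - E) * m))) := by
      refine mul_le_mul_of_nonneg_right ?_ (by positivity)
      exact one_div_le_one_div_of_le (by norm_num) (by linarith)
    have h2 : (1 / 8) * ((l : ℝ) ^ 2 * (21 / 20 * (3 * a + (z - E) * m))) =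
        63 / 160 * ((l : ℝ) ^ 2 * a) + 21 / 160 * (((z - E) * (l : ℝ) ^ 2) * m) := by ring
    have h3 : ((z - E) * (l : ℝ) ^ 2) * m ≤ 7 / 10 * m := mul_le_mul_of_nonneg_right hzl hm0
    have h4 : 0 ≤ (l : ℝ) ^ 2 * a := by positivity
    have h5 : 0 ≤ Real.sqrt (KH d) * (d * (l : ℝ) ^ 2) * a := by positivity
    nlinarith
  have hgx := (hgm x).trans hmle2
  calc (l : ℝ) ^ d * (g x) ^ 2 = (l : ℝ) ^ d * |g x| ^ 2 := by rw [sq_abs]
    _ ≤ (l : ℝ) ^ d * (2 * (Real.sqrt (KH d) * d + 1) * (l : ℝ) ^ 2 * a) ^ 2 := by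
        refine mul_le_mul_of_nonneg_left ?_ hld.le
        exact pow_le_pow_left₀ (abs_nonneg _) hgx 2
    _ = (2 * (Real.sqrt (KH d) * d + 1)) ^ 2 * (l : ℝ) ^ 4 * ((l : ℝ) ^ d * a ^ 2) := by ring
    _ = _ := by rw [ha2]; field_simp

/-- Module SUP. -/
theorem sup (hGap : GapStmt) : SupStmt := by
  intro d hd
  refine ⟨(2 * (Real.sqrt (KH d) * d + 1)) ^ 2, by positivity, ?_⟩
  intro M l _ z μ E V hP hF x
  set w : Tor d M → ℝ := fun y => (GP l E V * (QM d M l)ᵀ) x y with hw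
  have h1 := sup_bound hGap hP hF w x
  have h2 : (GP l E V *ᵥ ((QM d M l)ᵀ *ᵥ w)) x = sqn w := by
    rw [Matrix.mulVec_mulVec]
    unfold sqn
    simp only [Matrix.mulVec, dotProduct]
    exact Finset.sum_congr rfl fun y _ => by rw [hw]; ring
  rw [h2] at h1
  have h3 : ∑ y, ((GP l E V * (QM d M l)ᵀ) x y) ^ 2 = sqn w := rfl
  rw [h3]
  rcases (sqn_nonneg w).lt_or_eq with h | h
  · have h4 : sqn w * ((l : ℝ) ^ d * sqn w) ≤
        sqn w * ((2 * (Real.sqrt (KH d) * d + 1)) ^ 2 * (l : ℝ) ^ 4) := by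
      nlinarith
    exact le_of_mul_le_mul_left h4 h
  · rw [← h, mul_zero]; positivity

end Pool.Agent.IR.H48
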