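import Pool.Agent.Helper41_IR.Stmts

/-!
# IR: module ZERO
-/

set_option autoImplicit false
set_option linter.unusedSectionVars false

open MeasureTheory ProbabilityTheory

open scoped ENNReal NNReal BigOperators

noncomputable section

namespace Pool.Agent.IR.H48

open Matrix Pool.Agent.Anderson Pool.Agent.Loc Pool.Agent.BED Pool.Agent.IR

variable {d M : ℕ} [NeZero M]

theorem flat_mono {δ δ' z μ : ℝ} {V : Tor d M → ℝ} (hμ : 0 < μ) (h : δ ≤ δ')
    (hF : FlatD δ z μ V) : FlatD δ' z μ V :=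
  ⟨hF.1, hF.2.1, fun x => (hF.2.2 x).trans (mul_le_mul_of_nonneg_right h hμ.le)⟩

theorem sL_pos {l : ℕ} (hd : 1 ≤ d) (hl : 1 ≤ l) : 0 < sL d l := by
  unfold sL
  have h1 : (0 : ℝ) < d := by exact_mod_cast hd
  have h2 : (0 : ℝ) < l := by exact_mod_cast hl
  positivity

/-- `z - E` is at most `(7/20) sL` -/
theorem par_le {l : ℕ} {z μ E : ℝ} (hP : Par d M l z μ E) : z - E ≤ 7 / 20 * sL d l := by
  have h1 : (0 : ℝ) < d := by exact_mod_cast hP.hd
  have h2 : (0 : ℝ) < l := by exact_mod_cast hP.hl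
  have h3 := hP.hE2
  unfold sL
  rw [show 7 / 20 * (2 / ((d : ℝ) * (l : ℝ) ^ 2)) = 7 / (10 * d) / (l : ℝ) ^ 2 by field_simp; ring]
  rw [le_div_iff₀ (by positivity)]
  exact h3

theorem AP_mulVec (l : ℕ) (E : ℝ) (V u : Tor d M → ℝ) :
    AP l E V *ᵥ u = AM E V *ᵥ u + sL d l • ((QM d M l)ᵀ *ᵥ (QM d M l *ᵥ u)) := by
  unfold AP
  rw [Matrix.add_mulVec, Matrix.smul_mulVec, ← Matrix.mulVec_mulVec]

theorem AM_E_mulVec (z E : ℝ) (V u : Tor d M → ℝ) :
    AM E V *ᵥ u = AM z V *ᵥ u - (z - E) • u := by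
  have h := AM_sub (d := d) (M := M) z (z - E) V
  rw [sub_sub_cancel] at h
  rw [h, Matrix.sub_mulVec, Matrix.smul_mulVec, Matrix.one_mulVec]

theorem AP_form (l : ℕ) (z E : ℝ) (V u : Tor d M → ℝ) :
    ip u (AP l E V *ᵥ u) =
      ip u (AM z V *ᵥ u) - (z - E) * sqn u + sL d l * sqn (QM d M l *ᵥ u) := by
  rw [AP_mulVec, AM_E_mulVec z E, ip_add_right, ip_sub_right, ip_smul_right, ip_smul_right,
    ip_mulVec_transpose, ip_self, ip_self]

theorem ip_mulVec_symm {A : Matrix (Tor d M) (Tor d M) ℝ} (hA : A.PosDef) (u v : Tor d M → ℝ) :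
    ip u (A *ᵥ v) = ip (A *ᵥ u) v := by
  unfold ip
  exact sum_mul_mulVec_comm (symm_of_posDef hA) u v

/-- Cauchy-Schwarz for a positive definite matrix and its inverse -/
theorem cs_inv {A : Matrix (Tor d M) (Tor d M) ℝ} (hA : A.PosDef) (f g : Tor d M → ℝ) :
    ip f g ^ 2 ≤ ip f (A⁻¹ *ᵥ f) * ip g (A *ᵥ g) := by
  set a := ip f (A⁻¹ *ᵥ f) with ha
  set b := ip f g with hb
  set c := ip g (A *ᵥ g) with hc
  have key : ∀ t : ℝ, 0 ≤ a * (t * t) + (-2 * b) * t + c := by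
    intro t
    have h := nonneg_of_posDef hA (t • (A⁻¹ *ᵥ f) - g)
    have h' : 0 ≤ ip (t • (A⁻¹ *ᵥ f) - g) (A *ᵥ (t • (A⁻¹ *ᵥ f) - g)) := h
    rw [Matrix.mulVec_sub, Matrix.mulVec_smul, mulVec_inv hA, ip_sub_left, ip_sub_right,
      ip_sub_right, ip_smul_left, ip_smul_left, ip_smul_right, ip_smul_right,
      ip_mulVec_symm hA (A⁻¹ *ᵥ f) g, mulVec_inv hA, ip_comm (A⁻¹ *ᵥ f) f, ip_comm g f] at h'
    rw [ha, hb, hc]
    linarith
  have := discrim_le_zero key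
  unfold discrim at this
  nlinarith [this]

/-- Module ZERO. -/
theorem zero (hGap : GapStmt) : ZeroStmt := by
  intro d M l _ z μ E δ V hP hδ0 hδ hF
  have hF' := flat_mono hP.hμ hδ hF
  obtain ⟨-, hpos, -, -, -, -, -, -⟩ := hGap d M l z μ E V hP hF'
  have hs := sL_pos (d := d) hP.hd hP.hl
  have hzE := par_le hP
  have hμ := hP.hμ
  set D := DD z V with hD
  set N : ℝ := (M : ℝ) ^ d with hN
  have hN0 : 0 < N := by
    have : (0 : ℝ) < M := by exact_mod_cast Nat.pos_of_ne_zero (NeZero.ne M)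
    positivity
  have hcard : (Fintype.card (Tor d M) : ℝ) = N := by
    rw [Fintype.card_fun, ZMod.card, Fintype.card_fin, hN]; push_cast; rfl
  have hDle : ∀ x, D x ≤ (1 + δ) * μ := fun x => by
    have := (abs_le.1 (hF.2.2 x)).2; linarith
  have hDge : ∀ x, (1 - δ) * μ ≤ D x := fun x => by
    have := (abs_le.1 (hF.2.2 x)).1; linarith
  have hDpos : ∀ x, 0 < D x := fun x => lt_of_lt_of_le (mul_pos (by linarith) hμ) (hDge x)
  -- the double sum
  have hsum : ∑ x, ∑ y, BB l E V x y = sL d l * ip 1 (GP l E V *ᵥ 1) := by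
    have h1 : ∑ x, ∑ y, BB l E V x y = ip 1 (BB l E V *ᵥ 1) := by
      unfold ip; simp [Matrix.mulVec, dotProduct]
    rw [h1]
    unfold BB
    rw [Matrix.smul_mulVec, ip_smul_right, ← Matrix.mulVec_mulVec, ← Matrix.mulVec_mulVec,
      QMt_one hP.hl, ip_mulVec, QMt_one hP.hl]
  rw [hsum]
  set a := ip (1 : Tor d M → ℝ) (GP l E V *ᵥ 1) with ha
  set b := ip (1 : Tor d M → ℝ) D with hb
  set c := ip D (AP l E V *ᵥ D) with hc
  have hcs : b ^ 2 ≤ a * c := cs_inv hpos 1 D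
  have hbD : b = ∑ x, D x := by rw [hb]; unfold ip; simp
  have hb_ge : N * ((1 - δ) * μ) ≤ b := by
    rw [hbD]
    calc N * ((1 - δ) * μ) = ∑ _x : Tor d M, (1 - δ) * μ := by
          rw [Finset.sum_const, Finset.card_univ, nsmul_eq_mul, hcard]
      _ ≤ _ := Finset.sum_le_sum fun x _ => hDge x
  have hb_le : b ≤ N * ((1 + δ) * μ) := by
    rw [hbD]
    calc _ ≤ ∑ _x : Tor d M, (1 + δ) * μ := Finset.sum_le_sum fun x _ => hDle x
      _ = N * ((1 + δ) * μ) := by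
          rw [Finset.sum_const, Finset.card_univ, nsmul_eq_mul, hcard]
  have hsq_le : sqn D ≤ N * ((1 + δ) * μ) ^ 2 := by
    unfold sqn
    calc _ ≤ ∑ _x : Tor d M, ((1 + δ) * μ) ^ 2 :=
          Finset.sum_le_sum fun x _ => pow_le_pow_left₀ (hDpos x).le (hDle x) 2
      _ = _ := by rw [Finset.sum_const, Finset.card_univ, nsmul_eq_mul, hcard]
  set κ := sL d l - (z - E) with hκ
  have hκ0 : 0 < κ := by rw [hκ]; linarith
  have hc_le : c ≤ N * (1 + δ) ^ 2 * μ ^ 2 * (κ + 1 / μ) := by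
    rw [hc, AP_form l z E V D, AM_DD hF.2.1, ip_comm D 1, ← hb]
    have h1 := sqn_QM_le hP.hl D
    have h2 : sL d l * sqn (QM d M l *ᵥ D) ≤ sL d l * sqn D := mul_le_mul_of_nonneg_left h1 hs.le
    have h3 : κ * sqn D ≤ κ * (N * ((1 + δ) * μ) ^ 2) := mul_le_mul_of_nonneg_left hsq_le hκ0.le
    have h4 : N * ((1 + δ) * μ) ≤ N * (1 + δ) ^ 2 * μ := by
      have : (1 + δ) ≤ (1 + δ) ^ 2 := by nlinarith
      calc N * ((1 + δ) * μ) = N * μ * (1 + δ) := by ring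
        _ ≤ N * μ * (1 + δ) ^ 2 := mul_le_mul_of_nonneg_left this (by positivity)
        _ = _ := by ring
    have h5 : N * (1 + δ) ^ 2 * μ ^ 2 * (κ + 1 / μ) =
        κ * (N * ((1 + δ) * μ) ^ 2) + N * (1 + δ) ^ 2 * μ := by
      field_simp
    rw [h5]
    have h6 : κ * sqn D = sL d l * sqn D - (z - E) * sqn D := by rw [hκ]; ring
    linarith
  have hκμ : 0 < κ + 1 / μ := by positivity
  have ha0 : 0 ≤ a := by
    have h := nonneg_of_posDef hpos (GP l E V *ᵥ 1)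
    have h' : 0 ≤ ip (GP l E V *ᵥ 1) (AP l E V *ᵥ (GP l E V *ᵥ 1)) := h
    unfold GP at h'
    rw [mulVec_inv hpos, ip_comm] at h'
    exact h'
  -- conclusion
  have hfin : (1 - 4 * δ) * N ≤ a * (κ + 1 / μ) := by
    have h1 : (N * ((1 - δ) * μ)) ^ 2 ≤ a * (N * (1 + δ) ^ 2 * μ ^ 2 * (κ + 1 / μ)) := by
      have h0 : 0 ≤ N * ((1 - δ) * μ) := by
        have : 0 ≤ 1 - δ := by linarith
        positivity
      calc (N * ((1 - δ) * μ)) ^ 2 ≤ b ^ 2 := pow_le_pow_left₀ h0 hb_ge 2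
        _ ≤ a * c := hcs
        _ ≤ _ := mul_le_mul_of_nonneg_left hc_le ha0
    have h2 : (1 - 4 * δ) * (1 + δ) ^ 2 ≤ (1 - δ) ^ 2 := by nlinarith [sq_nonneg δ, pow_nonneg hδ0 3]
    have h3 : 0 < N * (1 + δ) ^ 2 * μ ^ 2 := by
      have : 0 < 1 + δ := by linarith
      positivity
    have h4 : (N * (1 + δ) ^ 2 * μ ^ 2) * ((1 - 4 * δ) * N) ≤
        (N * (1 + δ) ^ 2 * μ ^ 2) * (a * (κ + 1 / μ)) := by
      calc (N * (1 + δ) ^ 2 * μ ^ 2) * ((1 - 4 * δ) * N) =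
            (N ^ 2 * μ ^ 2) * ((1 - 4 * δ) * (1 + δ) ^ 2) := by ring
        _ ≤ (N ^ 2 * μ ^ 2) * (1 - δ) ^ 2 := mul_le_mul_of_nonneg_left h2 (by positivity)
        _ = (N * ((1 - δ) * μ)) ^ 2 := by ring
        _ ≤ a * (N * (1 + δ) ^ 2 * μ ^ 2 * (κ + 1 / μ)) := h1
        _ = _ := by ring
    exact le_of_mul_le_mul_left h4 h3
  rw [show (1 - 4 * δ) * (sL d l / (κ + 1 / μ)) * N = sL d l * ((1 - 4 * δ) * N / (κ + 1 / μ)) by
    ring]
  refine mul_le_mul_of_nonneg_left ?_ hs.le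
  rw [div_le_iff₀ hκμ]
  exact hfin

end Pool.Agent.IR.H48
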